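import Pool.Agent.Carlet.Equi

set_option autoImplicit false

namespace Pool.Agent.Results.MP_d08592_nt.Equidistribution

open Module

/-- `S(F)`: the sum of the inverses of the non-zero elements of the subspace `F`. -/
noncomputable def invSum {K : Type*} [Field K] [Algebra (ZMod 2) K]
    (F : Submodule (ZMod 2) K) : K :=
  ∑ᶠ v ∈ {v : K | v ∈ F ∧ v ≠ 0}, v⁻¹

/-- The number of all `k`-dimensional subspaces. -/
noncomputable def total (K : Type*) [Field K] [Algebra (ZMod 2) K] (k : ℕ) : ℕ :=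
  Nat.card {F : Submodule (ZMod 2) K // finrank (ZMod 2) F = k}

/-- The number of the `k`-dimensional subspaces `F` with `S(F) = s`. -/
noncomputable def count (K : Type*) [Field K] [Algebra (ZMod 2) K] (k : ℕ) (s : K) : ℕ :=
  Nat.card {F : Submodule (ZMod 2) K // finrank (ZMod 2) F = k ∧ invSum F = s}

section aux

open Pool.Agent.Carlet

variable {K : Type*} [Field K] [Fintype K] [Algebra (ZMod 2) K]

theorem invSum_eq (F : Submodule (ZMod 2) K) : invSum F = SH F := by
  classical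
  have h1 : {v : K | v ∈ F ∧ v ≠ 0} = ↑((el F).erase 0) := by
    ext x
    rw [Finset.mem_coe, Finset.mem_erase, mem_el]
    exact ⟨fun h => ⟨h.2, h.1⟩, fun h => ⟨h.2, h.1⟩⟩
  unfold invSum SH
  rw [h1, finsum_mem_coe_finset, ← Finset.add_sum_erase _ _ (zero_mem_el F), inv_zero, zero_add]

theorem total_eq (k : ℕ) : (total K k : ℝ) = Gc K k := by
  classical
  unfold total Gc Gr
  rw [Nat.card_eq_fintype_card, Fintype.card_subtype]

theorem count_eq (k : ℕ) (s : K) : count K k s = Cs K k s := by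
  classical
  unfold count Cs Gr
  rw [Nat.card_eq_fintype_card, Fintype.card_subtype, Finset.filter_filter]
  simp only [invSum_eq]

end aux

open Pool.Agent.Carlet in
/-- Carlet's conjecture in quantitative form. -/
theorem result (K : Type*) [Field K] [Algebra (ZMod 2) K] (n : ℕ) (hodd : Odd n) (hn : 7 ≤ n)
    (hK : Nat.card K = 2 ^ n) :
    (∀ k : ℕ, (1 ≤ k ∧ k ≤ n - 1 ∧
        ∃ F : Submodule (ZMod 2) K, finrank (ZMod 2) F = k ∧ invSum F = 0) ↔
      (3 ≤ k ∧ k ≤ n - 3)) ∧
    (11 ≤ n → ∀ k : ℕ, 3 ≤ k → k ≤ n - 3 → ∀ s : K,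
      |(count K k s : ℝ) * 2 ^ n / (total K k : ℝ) - 1| ≤ 2 / 3 ∧
      |(count K k s : ℝ) * 2 ^ n / (total K k : ℝ) - 1| ≤
        4 * (2 : ℝ) ^ (-(n : ℝ) / 4) + (2 : ℝ) ^ (-|(n : ℝ) - 2 * (k : ℝ)|)) := by
  classical
  have hfin : Finite K := by
    apply Nat.finite_of_card_ne_zero
    rw [hK]
    positivity
  let _ : Fintype K := Fintype.ofFinite K
  have hfr : finrank (ZMod 2) K = n := by
    have h1 := Module.card_eq_pow_finrank (K := ZMod 2) (V := K)
    rw [ZMod.card, ← Nat.card_eq_fintype_card, hK] at h1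
    exact (Nat.pow_right_injective (le_refl 2) h1).symm
  have hodd' : Odd (finrank (ZMod 2) K) := by rw [hfr]; exact hodd
  refine ⟨?_, ?_⟩
  · intro k
    have h := main_iff (trChr hodd') hodd' (by rw [hfr]; exact hn) k
    rw [hfr] at h
    simp only [invSum_eq]
    exact h
  · intro h11 k hk3 hk s
    have h11' : 11 ≤ finrank (ZMod 2) K := by rw [hfr]; exact h11
    obtain ⟨h1, h2⟩ := ratio_all (trChr hodd') hodd' h11' hk3 (by rw [hfr]; exact hk)
    have hq2 : 2 ≤ qq K := by
      rw [qq_eq, hfr]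
      calc (2 : ℝ) = 2 ^ 1 := by norm_num
        _ ≤ 2 ^ n := pow_le_pow_right₀ (by norm_num) (by omega)
    have hG : 0 < Gc K k := Gc_pos (trChr hodd') (by rw [hfr]; omega)
    have h3 := ratio_value hq2 hG s
    rw [qq_eq, hfr] at h1 h2 h3
    rw [count_eq, total_eq]
    exact ⟨h3.trans h1, h3.trans h2⟩

end Pool.Agent.Results.MP_d08592_nt.Equidistribution
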